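import Pool.Agent.helper53.ORE.Spec
import Pool.Agent.helper71.ORT.LRB

/-! Project ore, row LRB: lower bound for transvections. -/

set_option autoImplicit false

namespace Pool.Agent.ORE

open Module Pool.Agent.GS

theorem LRB : LRB_stmt := by
  classical
  intro F V _ _ _ _ _ Q h2 hN a k g hg r hr hrF hrH
  have hVfin : Finite V := Module.finite_of_finite F
  have hrp : Fact r.Prime := ⟨hr⟩
  obtain ⟨H, hH⟩ : ∃ H, H = Subgroup.closure (Set.range fun i => g i * rq Q a * (g i)⁻¹) :=
    ⟨_, rfl⟩
  rw [← hH] at hrH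
  obtain ⟨x, hx⟩ := exists_prime_orderOf_dvd_card' (G := H) r hrH
  obtain ⟨S, hS⟩ : ∃ S, S = Submodule.span F (Set.range fun i => g i a) := ⟨_, rfl⟩
  have hHle : H ≤ OQ Q := by
    rw [hH, Subgroup.closure_le]
    rintro _ ⟨i, rfl⟩
    exact (OQ Q).mul_mem ((OQ Q).mul_mem (hg i) (rq_mem Q a)) ((OQ Q).inv_mem (hg i))
  have hHS : ∀ h ∈ H, ∀ v, h v - v ∈ S := by
    intro h hh
    rw [hH] at hh
    induction hh using Subgroup.closure_induction with
    | mem h hm =>
      obtain ⟨i, rfl⟩ := hm
      intro v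
      show (g i * rq Q a * (g i)⁻¹) v - v ∈ S
      rw [rq_conj_mem (hg i)]
      by_cases h0 : Q (g i a) ≠ 0
      · rw [rq_apply h2 h0, add_sub_cancel_left]
        refine S.smul_mem _ ?_
        rw [hS]
        exact Submodule.subset_span ⟨i, rfl⟩
      · have h3 : rq Q (g i a) = 1 := by
          unfold rq
          rw [dif_neg (fun h => h0 h.2)]
        rw [h3, Equiv.Perm.one_apply, sub_self]
        exact S.zero_mem
    | one =>
      intro v
      rw [Equiv.Perm.one_apply, sub_self]
      exact S.zero_mem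
    | mul h h' _ _ ih ih' =>
      intro v
      have h4 : (h * h') v - v = (h (h' v) - h' v) + (h' v - v) := by
        rw [Equiv.Perm.mul_apply]
        abel
      rw [h4]
      exact S.add_mem (ih _) (ih' _)
    | inv h _ ih =>
      intro v
      have h5 := ih (h⁻¹ v)
      have h50 : h (h⁻¹ v) = v := by
        rw [← Equiv.Perm.mul_apply, mul_inv_cancel, Equiv.Perm.one_apply]
      rw [h50] at h5
      have h6 : h⁻¹ v - v = -(v - h⁻¹ v) := by abel
      rw [h6]
      exact S.neg_mem h5
  have hx1 : (x : Equiv.Perm V) ≠ 1 := by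
    intro h7
    have h8 : x = 1 := Subtype.ext h7
    rw [h8, orderOf_one] at hx
    exact hr.one_lt.ne hx
  have hxr : (x : Equiv.Perm V) ^ r = 1 := by
    have h9 : x ^ r = 1 := by
      rw [← hx]
      exact pow_orderOf_eq_one x
    have h10 := congrArg (Subtype.val) h9
    simpa using h10
  obtain ⟨i, hi1, hi2, hi3⟩ := ORT.LRB_order (x : Equiv.Perm V) (hHle x.2).1 r hr hrF hxr hx1 S
    (hHS _ x.2)
  refine ⟨i, hi1, hi2.trans ?_, hi3⟩
  have h11 := finrank_range_le_card (R := F) (fun i => g i a)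
  rw [Fintype.card_fin] at h11
  rw [hS]
  exact h11

end Pool.Agent.ORE
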