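import Pool.Agent.helper53.ORE.Spec

/-! Project ore, row O4. -/

set_option autoImplicit false

namespace Pool.Agent.ORE

open Module Pool.Agent.GS

/-- nondegeneracy in the sense of Mathlib -/
theorem O4_nondeg {F V : Type} [Field F] [AddCommGroup V] [Module F V]
    {Q : QuadraticForm F V} (hN : Nd Q) : (pb Q).Nondegenerate := by
  refine ⟨hN, fun x hx => hN x fun y => ?_⟩
  rw [pb_symm]
  exact hx y

theorem O4_refl {F V : Type} [Field F] [AddCommGroup V] [Module F V]
    (Q : QuadraticForm F V) : (pb Q).IsRefl := by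
  intro x y h
  rw [pb_symm]
  exact h

/-- dimension count -/
theorem O4_dim {F V : Type} [Field F] [AddCommGroup V] [Module F V] [FiniteDimensional F V]
    (f : V →ₗ[F] V) (Y T : Submodule F V) (h : ∀ x ∈ Y, f x ∈ T) :
    finrank F Y ≤ finrank F T + finrank F (Y ⊓ LinearMap.ker f : Submodule F V) := by
  have h1 := LinearMap.finrank_range_add_finrank_ker (f.domRestrict Y)
  have h2 : finrank F (LinearMap.range (f.domRestrict Y)) ≤ finrank F T := by
    refine Submodule.finrank_mono ?_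
    rintro _ ⟨x, rfl⟩
    exact h x.1 x.2
  have h3 : finrank F (LinearMap.ker (f.domRestrict Y)) ≤
      finrank F (Y ⊓ LinearMap.ker f : Submodule F V) := by
    rw [← Submodule.finrank_map_subtype_eq Y (LinearMap.ker (f.domRestrict Y))]
    refine Submodule.finrank_mono ?_
    rintro _ ⟨x, hx, rfl⟩
    exact ⟨x.2, hx⟩
  omega

/-- the main step -/
theorem O4_key (c1 : C1_stmt) {F V : Type} [Field F] [Finite F] [AddCommGroup V] [Module F V]
    [FiniteDimensional F V] (Q : QuadraticForm F V) (h2 : (2 : F) = 0) (hN : Nd Q)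
    (hn : 8 ≤ finrank F V) {y : Equiv.Perm V} (hy : y ∈ OQ Q) (hno : ¬ Bl Q y 2)
    (s : V →ₗ[F] V) (hs : ∀ v, s v = y v + y⁻¹ v)
    (hd : finrank F (LinearMap.ker s) ≤ 2) (u : V) (hli : LinearIndependent F ![u, y u])
    (hQ : Q u = 0) (hS : pb Q u (y u) = 0) :
    finrank F (Submodule.span F (Set.range ![y⁻¹ u, u, y u])) = 3 ∧
      finrank F (LinearMap.ker s) = 2 ∧ ∀ w ∈ LinearMap.ker s, pb Q u w = 0 := by
  obtain ⟨T, hT⟩ : ∃ T, T = Submodule.span F (Set.range ![y⁻¹ u, u, y u]) := ⟨_, rfl⟩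
  obtain ⟨Y, hY⟩ : ∃ Y, Y = (pb Q).orthogonal T := ⟨_, rfl⟩
  rw [← hT]
  have hT3 : finrank F T ≤ 3 := by
    have h3 : finrank F (Submodule.span F (Set.range ![y⁻¹ u, u, y u])) ≤
        Fintype.card (Fin 3) := finrank_range_le_card _
    rwa [Fintype.card_fin, ← hT] at h3
  have hYdim : finrank F Y = finrank F V - finrank F T := by
    rw [hY]
    exact LinearMap.BilinForm.finrank_orthogonal (O4_nondeg hN) T
  have hYT : (pb Q).orthogonal Y = T := by
    rw [hY]
    exact LinearMap.BilinForm.orthogonal_orthogonal (O4_nondeg hN) (O4_refl Q) T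
  have hYm : ∀ a ∈ Y, pb Q (y⁻¹ u) a = 0 ∧ pb Q u a = 0 ∧ pb Q (y u) a = 0 := by
    intro a ha
    rw [hY, LinearMap.BilinForm.mem_orthogonal_iff] at ha
    refine ⟨ha _ ?_, ha _ ?_, ha _ ?_⟩
    · rw [hT]; exact Submodule.subset_span ⟨0, rfl⟩
    · rw [hT]; exact Submodule.subset_span ⟨1, rfl⟩
    · rw [hT]; exact Submodule.subset_span ⟨2, rfl⟩
  have hSY : ∀ a ∈ Y, pb Q a (y a) = 0 := by
    intro a ha
    by_contra hne
    obtain ⟨h3, h4, h5⟩ := hYm a ha
    exact hno (c1 Q h2 hN hn y hy u a hli hQ hS h3 h4 h5 hne)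
  have hsY : ∀ b ∈ Y, s b ∈ T := by
    intro b hb
    rw [← hYT, LinearMap.BilinForm.mem_orthogonal_iff]
    intro a ha
    have h3 := hSY (a + b) (Y.add_mem ha hb)
    rw [hy.1.1, map_add, map_add, LinearMap.add_apply, LinearMap.add_apply, hSY a ha, hSY b hb,
      zero_add, add_zero] at h3
    have h4 : pb Q b (y a) = pb Q a (y⁻¹ b) := by
      rw [← OQ_pb hy a (y⁻¹ b), pinv, pb_symm]
    rw [hs, map_add, ← h4, add_comm]
    exact h3
  have hdim := O4_dim s Y T hsY
  have hle1 : finrank F (Y ⊓ LinearMap.ker s : Submodule F V) ≤ finrank F (LinearMap.ker s) :=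
    Submodule.finrank_mono inf_le_right
  have hTV : finrank F T ≤ finrank F V := Submodule.finrank_le T
  have e1 : finrank F T = 3 := by omega
  have e2 : finrank F (LinearMap.ker s) = 2 := by omega
  have e3 : finrank F (Y ⊓ LinearMap.ker s : Submodule F V) = finrank F (LinearMap.ker s) := by
    omega
  have e4 : Y ⊓ LinearMap.ker s = LinearMap.ker s := Submodule.eq_of_le_of_finrank_eq inf_le_right e3
  refine ⟨e1, e2, fun w hw => ?_⟩
  rw [← e4] at hw
  exact (hYm w hw.1).2.1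

/-- projection onto the fixed vectors -/
theorem O4_proj {F V : Type} [Field F] [AddCommGroup V] [Module F V]
    (Q : QuadraticForm F V) (h2 : (2 : F) = 0) {y : Equiv.Perm V} (hy : y ∈ OQ Q) {l : ℕ}
    (hl : Odd l) (hyl : y ^ l = 1) (v : V) :
    ∃ p, y p = p ∧ ∀ w, y w = w → pb Q w (v - p) = 0 := by
  refine ⟨∑ i ∈ Finset.range l, (y ^ i) v, ?_, fun w hw => ?_⟩
  · obtain ⟨L, hL⟩ : ∃ L : V →ₗ[F] V, ∀ v, L v = y v :=
      ⟨{ toFun := y, map_add' := hy.1.1, map_smul' := hy.1.2 }, fun v => rfl⟩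
    have e : ∀ i, y ((y ^ i) v) = (y ^ (i + 1)) v := by
      intro i
      rw [pow_succ', Equiv.Perm.mul_apply]
    rw [← hL, map_sum]
    simp only [hL, e]
    have h3 := Finset.sum_range_succ' (fun i => (y ^ i) v) l
    rw [Finset.sum_range_succ, hyl, pow_zero] at h3
    exact (add_right_cancel h3).symm
  · have hw' : ∀ i : ℕ, (y ^ i) w = w := by
      intro i
      induction i with
      | zero => rfl
      | succ i ih => rw [pow_succ, Equiv.Perm.mul_apply, hw, ih]
    have e : ∀ i : ℕ, pb Q w ((y ^ i) v) = pb Q w v := by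
      intro i
      have h3 := OQ_pb ((OQ Q).pow_mem hy i) w v
      rwa [hw' i] at h3
    rw [map_sub, map_sum, Finset.sum_congr rfl fun i _ => e i, Finset.sum_const,
      Finset.card_range]
    obtain ⟨k, rfl⟩ := hl
    rw [add_smul, mul_smul, one_smul, two_smul, add2 h2, zero_add, sub_self]

theorem O4 (c1 : C1_stmt) (cw : CWQ_stmt) (qz : QZ2_stmt) : O4_stmt := by
  intro F V _ _ _ _ _ Q h2 hN hn y hy hy1 l hl hyl hfix heig
  by_contra hno
  have hyi := (OQ Q).inv_mem hy
  obtain ⟨s, hs⟩ : ∃ s : V →ₗ[F] V, ∀ v, s v = y v + y⁻¹ v := by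
    refine ⟨{ toFun := fun v => y v + y⁻¹ v, map_add' := ?_, map_smul' := ?_ }, fun v => rfl⟩
    · intro a b
      rw [hy.1.1, hyi.1.1]
      abel
    · intro c a
      rw [hy.1.2, hyi.1.2, smul_add]
      rfl
  obtain ⟨S, hS, hSp⟩ : ∃ S : QuadraticForm F V, (∀ v, S v = pb Q v (y v)) ∧
      ∀ u v, pb S u v = pb Q u (s v) := by
    refine ⟨qy Q y hy.1, fun v => rfl, fun u v => ?_⟩
    rw [qy_pb, hs, map_add]
    congr 1
    rw [← OQ_pb hy u (y⁻¹ v), pinv, pb_symm]
  -- the kernel of `s`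
  have hker : ∀ x, x ∈ LinearMap.ker s ↔ y x = x := by
    intro x
    rw [LinearMap.mem_ker, hs]
    constructor
    · intro h
      have h3 : y x = y⁻¹ x := eq_of_addV h2 h
      have h4 : (y ^ 2) x = x := by
        rw [pow_two, Equiv.Perm.mul_apply, h3, pinv]
      have h5 : ∀ k : ℕ, ((y ^ 2) ^ k) x = x := by
        intro k
        induction k with
        | zero => rfl
        | succ k ih => rw [pow_succ, Equiv.Perm.mul_apply, h4, ih]
      obtain ⟨k, hk⟩ := hl
      have h6 : (y ^ l) x = x := by rw [hyl]; rfl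
      rw [hk, pow_add, pow_one, pow_mul, Equiv.Perm.mul_apply] at h6
      have h7 : ((y ^ 2) ^ k) (y x) = y (((y ^ 2) ^ k) x) := by
        rw [← Equiv.Perm.mul_apply, ← Equiv.Perm.mul_apply, ← pow_mul, ← pow_succ, ← pow_succ']
      rw [h7, h5] at h6
      exact h6
    · intro h
      have h3 : y⁻¹ x = x := by rw [Equiv.Perm.inv_eq_iff_eq]; exact h.symm
      rw [h, h3, addV h2]
  -- the orthogonal complement
  obtain ⟨V₁, hV₁⟩ : ∃ V₁, V₁ = (pb Q).orthogonal (LinearMap.ker s) := ⟨_, rfl⟩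
  have hm1 : ∀ x, x ∈ V₁ ↔ ∀ w, y w = w → pb Q w x = 0 := by
    intro x
    rw [hV₁, LinearMap.BilinForm.mem_orthogonal_iff]
    constructor
    · intro h w hw
      exact h w ((hker w).2 hw)
    · intro h w hw
      exact h w ((hker w).1 hw)
  have hnd1 : ∀ x ∈ V₁, (∀ w ∈ V₁, pb Q w x = 0) → x = 0 := by
    intro x hx h
    apply hN
    intro v
    obtain ⟨p, hp, hp'⟩ := O4_proj Q h2 hy hl hyl v
    have h3 : v = p + (v - p) := by abel
    rw [pb_symm, h3, map_add, LinearMap.add_apply, (hm1 x).1 hx p hp,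
      h (v - p) ((hm1 _).2 hp'), add_zero]
  have hdisj : ∀ x ∈ V₁, y x = x → x = 0 := by
    intro x hx hyx
    refine hnd1 x hx fun w hw => ?_
    rw [pb_symm]
    exact (hm1 w).1 hw x hyx
  have hdim1 : finrank F V₁ = finrank F V - finrank F (LinearMap.ker s) := by
    rw [hV₁]
    exact LinearMap.BilinForm.finrank_orthogonal (O4_nondeg hN) _
  have hd : finrank F (LinearMap.ker s) ≤ 2 := by
    by_contra h
    obtain ⟨u, hu, hu0, hQu⟩ := (cw Q Q).1 (LinearMap.ker s) (by omega)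
    exact hu0 (hfix u ((hker u).1 hu) hQu)
  have hyV1 : ∀ x ∈ V₁, y x ∈ V₁ := by
    intro x hx
    rw [hm1]
    intro w hw
    have h3 : pb Q w (y x) = pb Q (y w) (y x) := by rw [hw]
    rw [h3, OQ_pb hy]
    exact (hm1 x).1 hx w hw
  have hsV1 : ∀ x ∈ V₁, s x ∈ V₁ := by
    intro x hx
    rw [hs]
    refine V₁.add_mem (hyV1 x hx) ?_
    rw [hm1]
    intro w hw
    have h3 : pb Q w (y⁻¹ x) = pb Q (y w) (y (y⁻¹ x)) := (OQ_pb hy _ _).symm
    rw [h3, pinv, hw]
    exact (hm1 x).1 hx w hw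
  -- singular vectors are not eigenvectors
  have hli : ∀ u : V, u ≠ 0 → Q u = 0 → LinearIndependent F ![u, y u] := by
    intro u hu hQu
    rw [LinearIndependent.pair_iff' hu]
    intro c hc
    have h3 := heig u c hu hc.symm
    rw [h3, one_smul] at hc
    exact hu (hfix u hc.symm hQu)
  have key : ∀ u : V, u ≠ 0 → Q u = 0 → S u = 0 →
      finrank F (Submodule.span F (Set.range ![y⁻¹ u, u, y u])) = 3 ∧
      finrank F (LinearMap.ker s) = 2 ∧ ∀ w ∈ LinearMap.ker s, pb Q u w = 0 := by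
    intro u hu hQu hSu
    rw [hS] at hSu
    exact O4_key c1 Q h2 hN hn hy hno s hs hd u (hli u hu hQu) hQu hSu
  obtain ⟨u₀, -, hu₀, hQ₀, hS₀⟩ := (cw Q S).2 ⊤ (by rw [finrank_top]; omega)
  have hd2 := (key u₀ hu₀ hQ₀ hS₀).2.1
  have hin : ∀ u : V, u ≠ 0 → Q u = 0 → S u = 0 → u ∈ V₁ := by
    intro u hu hQu hSu
    rw [hm1]
    intro w hw
    rw [pb_symm]
    exact (key u hu hQu hSu).2.2 w ((hker w).2 hw)
  -- a nonsingular fixed vector
  obtain ⟨b, hb, hb0⟩ : ∃ b, y b = b ∧ b ≠ 0 := by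
    have h3 : LinearMap.ker s ≠ ⊥ := by
      intro h
      rw [h, finrank_bot] at hd2
      omega
    obtain ⟨b, hb, hb0⟩ := (Submodule.ne_bot_iff _).1 h3
    exact ⟨b, (hker b).1 hb, hb0⟩
  have hQb : Q b ≠ 0 := fun h => hb0 (hfix b hb h)
  have hchar := charP2 h2
  have hsub : ∀ z ∈ V₁, S z = 0 → Q z = 0 := by
    intro z hz hSz
    by_contra hQz
    obtain ⟨c, hc⟩ := FiniteField.isSquare_of_char_two (F := F) (ringChar.eq F 2) (Q z / Q b)
    have hc' : c ^ 2 * Q b = Q z := by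
      rw [pow_two, ← hc]
      field_simp
    have hc0 : c ≠ 0 := by
      intro h
      rw [h] at hc'
      apply hQz
      rw [← hc']
      ring
    have hbz : pb Q b z = 0 := (hm1 z).1 hz b hb
    have hbyz : pb Q b (y z) = 0 := (hm1 _).1 (hyV1 z hz) b hb
    have h3 : Q (c • b + z) = 0 := by
      rw [Q_add, Q_smul, hc', map_smul, LinearMap.smul_apply, hbz, smul_zero, add_zero,
        add2 h2]
    have h4 : S (c • b + z) = 0 := by
      rw [hS] at hSz ⊢
      rw [hy.1.1, hy.1.2, hb]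
      simp only [map_add, map_smul, LinearMap.add_apply, LinearMap.smul_apply, hSz, hbyz,
        pb_self2 h2, pb_symm Q z b, hbz, smul_zero, add_zero]
    have h5 : c • b + z ≠ 0 := by
      intro h
      have h6 : c • b = z := eq_of_addV h2 h
      have h7 : z = 0 := hdisj z hz (by rw [← h6, hy.1.2, hb])
      apply hQz
      rw [h7, Q_zero]
    have h6 := hin _ h5 h3 h4
    have h7 : c • b ∈ V₁ := by
      have := V₁.sub_mem h6 hz
      rwa [add_sub_cancel_right] at this
    have h8 := hdisj _ h7 (by rw [hy.1.2, hb])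
    rcases smul_eq_zero.1 h8 with h9 | h9
    · exact hc0 h9
    · exact hb0 h9
  -- the restrictions to `V₁`
  have hpc : ∀ (P : QuadraticForm F V) (x z : V₁), pb (P.comp V₁.subtype) x z = pb P x.1 z.1 := by
    intro P x z
    have h3 := Q_add (P.comp V₁.subtype) x z
    have h4 := Q_add P x.1 z.1
    have e1 : (P.comp V₁.subtype) (x + z) = P (x.1 + z.1) := rfl
    have e2 : (P.comp V₁.subtype) x = P x.1 := rfl
    have e3 : (P.comp V₁.subtype) z = P z.1 := rfl
    rw [e1, e2, e3] at h3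
    linear_combination h4 - h3
  obtain ⟨m, hm⟩ := qz (Q.comp V₁.subtype) (S.comp V₁.subtype) h2 (by
    intro x hx
    have h3 : s x.1 = 0 := by
      refine hnd1 _ (hsV1 _ x.2) fun w hw => ?_
      have h4 := hx ⟨w, hw⟩
      rw [hpc, pb_symm] at h4
      rw [hSp] at h4
      exact h4
    have h4 := hdisj x.1 x.2 ((hker _).1 (LinearMap.mem_ker.2 h3))
    exact Subtype.ext h4) (by omega) (fun v hv => hsub v.1 v.2 hv)
  have hm' : ∀ v ∈ V₁, Q v = m * S v := fun v hv => hm ⟨v, hv⟩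
  have hm0 : m ≠ 0 := by
    intro h
    have h3 : ∀ v ∈ V₁, Q v = 0 := by
      intro v hv
      rw [hm' v hv, h, zero_mul]
    have h4 : ∀ x ∈ V₁, x = 0 := by
      intro x hx
      refine hnd1 x hx fun w hw => ?_
      have h5 := Q_add Q w x
      rw [h3 _ (V₁.add_mem hw hx), h3 w hw, h3 x hx] at h5
      linear_combination -h5
    have h5 : V₁ = ⊥ := (Submodule.eq_bot_iff _).2 h4
    rw [h5, finrank_bot] at hdim1
    omega
  have hsm : ∀ w ∈ V₁, w = m • s w := by
    intro w hw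
    rw [← sub_eq_zero]
    refine hnd1 _ (V₁.sub_mem hw (V₁.smul_mem m (hsV1 w hw))) fun x hx => ?_
    have h3 := Q_add Q x w
    rw [hm' _ (V₁.add_mem hx hw), hm' x hx, hm' w hw, Q_add S] at h3
    rw [map_sub, map_smul, smul_eq_mul, ← hSp]
    linear_combination -h3
  obtain ⟨u, hu, hu0, hQu⟩ := (cw Q Q).1 V₁ (by omega)
  have hSu : S u = 0 := by
    have h3 := hm' u hu
    rw [hQu] at h3
    exact (mul_eq_zero.1 h3.symm).resolve_left hm0
  have h3 := (key u hu0 hQu hSu).1
  have h4 : y⁻¹ u ∈ Submodule.span F (Set.range ![u, y u]) := by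
    have h5 : y⁻¹ u = m⁻¹ • u - y u := by
      have h6 := hsm u hu
      rw [hs] at h6
      have h7 : m⁻¹ • u = y u + y⁻¹ u := by
        rw [h6, smul_smul, inv_mul_cancel₀ hm0, one_smul, ← h6]
      rw [h7]
      abel
    rw [h5]
    exact Submodule.sub_mem _ (Submodule.smul_mem _ _ (Submodule.subset_span ⟨0, rfl⟩))
      (Submodule.subset_span ⟨1, rfl⟩)
  have h5 : Submodule.span F (Set.range ![y⁻¹ u, u, y u]) ≤
      Submodule.span F (Set.range ![u, y u]) := by
    rw [Submodule.span_le]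
    rintro _ ⟨i, rfl⟩
    fin_cases i
    · exact h4
    · exact Submodule.subset_span ⟨0, rfl⟩
    · exact Submodule.subset_span ⟨1, rfl⟩
  have h6 := Submodule.finrank_mono h5
  have h7 : finrank F (Submodule.span F (Set.range ![u, y u])) ≤ Fintype.card (Fin 2) :=
    finrank_range_le_card _
  rw [Fintype.card_fin] at h7
  omega

end Pool.Agent.ORE
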