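import Pool.Agent.helper53.ORE.Spec

/-! Project ore, row ORD: the degree of `K` is the order of `q²` modulo `r`. -/

set_option autoImplicit false

namespace Pool.Agent.ORE

open Module Pool.Agent.GS

theorem ORD_add {F V : Type} [Field F] [AddCommGroup V] [Module F V] (h2 : (2 : F) = 0)
    (T Ti : Module.End F V) (hc : T * Ti = Ti * T) (e : ℕ) :
    (T + Ti) ^ (2 ^ e) = T ^ (2 ^ e) + Ti ^ (2 ^ e) := by
  induction e with
  | zero => simp
  | succ e ih =>
    have h0 : ∀ X : Module.End F V, X + X = 0 := by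
      intro X
      ext v
      exact addV h2 (X v)
    have hcc : T ^ (2 ^ e) * Ti ^ (2 ^ e) = Ti ^ (2 ^ e) * T ^ (2 ^ e) :=
      ((show Commute T Ti from hc).pow_pow _ _).eq
    rw [pow_succ 2 e, pow_mul, ih, pow_mul, pow_mul, pow_two, pow_two, pow_two, add_mul, mul_add,
      mul_add, ← hcc]
    have e1 : ∀ A B C : Module.End F V, A + B + (B + C) = A + C + (B + B) := by
      intro A B C
      abel
    rw [e1, h0, add_zero]

theorem ORD_fix {F V K : Type} [Field F] [Finite F] [AddCommGroup V] [Module F V]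
    [Field K] [Algebra F K] [Finite K] [FiniteDimensional F K] (Q : QuadraticForm F V)
    (k : Equiv.Perm V) (hk : k ∈ OQ Q) (σ : K) (j : K →ₗ[F] V)
    (d2 : ∀ c, k (k (j c)) = k (j (σ * c)) + j c)
    (d3 : ∀ x y, j x + k (j y) = 0 → x = 0 ∧ y = 0)
    (d4 : ∀ x y, k (j x + k (j y)) = j x + k (j y) → x = 0 ∧ y = 0)
    (r : ℕ) (hr : r.Prime) (hkr : k ^ r = 1) :
    Nat.card F ^ (2 * finrank F K) ≡ 1 [MOD r] := by
  classical
  have hrp : Fact r.Prime := ⟨hr⟩
  have : Fintype F := Fintype.ofFinite F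
  have : Fintype K := Fintype.ofFinite K
  obtain ⟨f, hf⟩ : ∃ f : Function.End (K × K), ∀ p, f p = (p.2, p.1 + σ * p.2) :=
    ⟨fun p => (p.2, p.1 + σ * p.2), fun p => rfl⟩
  obtain ⟨e, he⟩ : ∃ e : K × K → V, ∀ p, e p = j p.1 + k (j p.2) :=
    ⟨fun p => j p.1 + k (j p.2), fun p => rfl⟩
  have hinj : Function.Injective e := by
    intro a b hab
    rw [he, he] at hab
    have hneg : ∀ v, k (-v) = -k v := by
      intro v
      have h3 := hk.1.2 (-1) v
      rwa [neg_one_smul, neg_one_smul] at h3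
    have h3 := d3 (a.1 - b.1) (a.2 - b.2) (by
      rw [map_sub, map_sub, sub_eq_add_neg (j a.2), hk.1.1, hneg]
      have h4 : j a.1 - j b.1 + (k (j a.2) + -k (j b.2)) =
          (j a.1 + k (j a.2)) - (j b.1 + k (j b.2)) := by abel
      rw [h4, hab, sub_self])
    exact Prod.ext (sub_eq_zero.1 h3.1) (sub_eq_zero.1 h3.2)
  have hef : ∀ p, e (f p) = k (e p) := by
    intro p
    rw [he, he, hf, hk.1.1, d2]
    show j p.2 + k (j (p.1 + σ * p.2)) = _
    rw [map_add, hk.1.1]
    abel
  have hefn : ∀ (n : ℕ) (p : K × K), e ((f ^ n) p) = (k ^ n) (e p) := by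
    intro n
    induction n with
    | zero => intro p; rfl
    | succ n ih =>
      intro p
      rw [pow_succ', pow_succ', Equiv.Perm.mul_apply, ← ih]
      exact hef _
  have hfr : f ^ r ^ 1 = 1 := by
    rw [pow_one]
    funext p
    apply hinj
    rw [hefn, hkr]
    rfl
  have h3 := Equiv.Perm.card_fixedPoints_modEq hfr
  have h4 : Fintype.card (Function.fixedPoints f) = 1 := by
    rw [Fintype.card_eq_one_iff]
    have h0 : f (0, 0) = (0, 0) := by rw [hf]; simp
    refine ⟨⟨(0, 0), h0⟩, fun p => ?_⟩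
    have h5 : f p.1 = p.1 := p.2
    have h6 := hef p.1
    rw [h5, he] at h6
    obtain ⟨h7, h8⟩ := d4 _ _ h6.symm
    exact Subtype.ext (Prod.ext h7 h8)
  rw [h4, Fintype.card_prod, Module.card_eq_pow_finrank (K := F) (V := K), ← pow_add,
    ← two_mul] at h3
  rw [Nat.card_eq_fintype_card]
  exact h3

theorem ORD (dqi : DQI_stmt) : ORD_stmt := by
  intro F V K _ _ _ _ _ _ _ _ Q h2 k hk σ j hD r hr hr2 hkr i
  obtain ⟨-, d2, d3, d4, -⟩ := dqi Q h2 k hk σ j hD
  have hrp : Fact r.Prime := ⟨hr⟩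
  have hFF : Fintype F := Fintype.ofFinite F
  have hq1 : 1 ≤ Nat.card F := Nat.card_pos
  constructor
  · intro hri
    obtain ⟨N, hN⟩ : ∃ N, N = Nat.card F ^ i := ⟨_, rfl⟩
    obtain ⟨M, hM⟩ : ∃ M, N = M + 1 := ⟨N - 1, by
      have : 1 ≤ Nat.card F ^ i := Nat.one_le_pow _ _ hq1
      omega⟩
    -- `N` is a power of two
    obtain ⟨e, he⟩ : ∃ e, N = 2 ^ e := by
      have := charP2 h2
      obtain ⟨n, -, hn⟩ := FiniteField.card F 2
      refine ⟨n * i, ?_⟩
      rw [hN, Nat.card_eq_fintype_card, hn, pow_mul]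
    obtain ⟨T, hT⟩ : ∃ T : Module.End F V, ∀ v, T v = k v :=
      ⟨{ toFun := k, map_add' := hk.1.1, map_smul' := hk.1.2 }, fun v => rfl⟩
    have hki := (OQ Q).inv_mem hk
    obtain ⟨Ti, hTi⟩ : ∃ T : Module.End F V, ∀ v, T v = k⁻¹ v :=
      ⟨{ toFun := ⇑(k⁻¹), map_add' := hki.1.1, map_smul' := hki.1.2 }, fun v => rfl⟩
    have hc : T * Ti = Ti * T := by
      ext v
      rw [Module.End.mul_apply, Module.End.mul_apply, hT, hTi, hTi, hT, ← Equiv.Perm.mul_apply,
        ← Equiv.Perm.mul_apply, mul_inv_cancel, inv_mul_cancel]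
    have hTpow : ∀ (n : ℕ) (v : V), (T ^ n) v = (k ^ n) v := by
      intro n
      induction n with
      | zero => intro v; rfl
      | succ n ih =>
        intro v
        rw [pow_succ, pow_succ, Module.End.mul_apply, Equiv.Perm.mul_apply, hT, ih]
    have hTipow : ∀ (n : ℕ) (v : V), (Ti ^ n) v = (k⁻¹ ^ n) v := by
      intro n
      induction n with
      | zero => intro v; rfl
      | succ n ih =>
        intro v
        rw [pow_succ, pow_succ, Module.End.mul_apply, Equiv.Perm.mul_apply, hTi, ih]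
    have hSpow : ∀ (n : ℕ) (c : K), ((T + Ti) ^ n) (j c) = j (σ ^ n * c) := by
      intro n
      induction n with
      | zero => intro c; rw [pow_zero, pow_zero, one_mul]; rfl
      | succ n ih =>
        intro c
        rw [pow_succ, Module.End.mul_apply, LinearMap.add_apply, hT, hTi, hD.s, ih]
        congr 1
        ring
    have hsum : ∀ v, (k ^ N) v + (k⁻¹ ^ N) v = k v + k⁻¹ v := by
      intro v
      have h3 : (M + 1) ^ 2 - 1 = M * (M + 2) := by
        have : (M + 1) ^ 2 = M * (M + 2) + 1 := by ring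
        rw [this]; rfl
      rw [mul_comm 2 i, pow_mul, ← hN, hM, h3] at hri
      rcases (hr.dvd_mul).1 hri with ⟨t, ht⟩ | ⟨t, ht⟩
      · have h4 : k ^ N = k := by
          rw [hM, ht, pow_succ, pow_mul, hkr, one_pow, one_mul]
        rw [inv_pow, h4]
      · have h4 : k ^ (N + 1) = 1 := by
          rw [hM, show M + 1 + 1 = r * t by omega, pow_mul, hkr, one_pow]
        have h5 : k ^ N = k⁻¹ := by
          rw [pow_succ] at h4
          exact eq_inv_of_mul_eq_one_left h4
        rw [inv_pow, h5, inv_inv, add_comm]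
    have hσ : σ ^ N = σ := by
      have h3 := hSpow N 1
      rw [he, ORD_add h2 T Ti hc, LinearMap.add_apply, hTpow, hTipow, ← he, hsum, hD.s, mul_one,
        mul_one] at h3
      have h4 := d3 (σ ^ N - σ) 0 (by
        have hk0 : k 0 = 0 := by
          have h5 := hk.1.2 (0 : F) (0 : V)
          rwa [zero_smul, zero_smul] at h5
        rw [map_sub, map_zero, hk0, add_zero, h3, sub_self])
      exact sub_eq_zero.1 h4.1
    have h3 : FiniteField.frobeniusAlgHom F K ^ i = 1 := by
      refine AlgHom.ext_of_adjoin_eq_top hD.ad ?_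
      intro x hx
      rw [Set.mem_singleton_iff.1 hx, AlgHom.coe_pow, FiniteField.coe_frobeniusAlgHom,
        pow_iterate, AlgHom.one_apply]
      show σ ^ (Fintype.card F ^ i) = σ
      rw [← Nat.card_eq_fintype_card, ← hN, hσ]
    have h4 := orderOf_dvd_of_pow_eq_one h3
    rwa [FiniteField.orderOf_frobeniusAlgHom] at h4
  · rintro ⟨t, rfl⟩
    have h3 := ORD_fix Q k hk σ j d2 d3 d4 r hr hkr
    have h4 : Nat.card F ^ (2 * (finrank F K * t)) ≡ 1 [MOD r] := by
      rw [← mul_assoc, pow_mul]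
      have h5 := h3.pow t
      rwa [one_pow] at h5
    exact (Nat.modEq_iff_dvd' (Nat.one_le_pow _ _ hq1)).1 h4.symm

end Pool.Agent.ORE
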